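import Pool.Agent.Run7.h172.Nil.Stm
import Pool.Agent.Helper44K9.FU.Eq
import Pool.Agent.Helper44K9.FU.Trig2
import Pool.Agent.Helper44K9.FU.Chb
import Pool.Agent.Helper44K9.FU.Pw
import Pool.Agent.Helper44K9.FU.Kap

/-!
# Project NIL (helper172), piece CNT (helper304)

`ld1'_of` is a copy of the theorem `Run7.h651.NPP.ld1_of` of helper651 without the hypothesis on torsion points.
-/

set_option autoImplicit false

namespace Pool.Agent.Run7.h304.Nil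

open Finset Polynomial MeasureTheory Filter Topology
open Pool.Agent.H807R2.Dav (ee norm_ee)
open Pool.Agent.Helper44K9.FU (W Mul1 Rel dil S_PW S_TRIG2 S_CHB)
open Pool.Agent.Helper44K9.FU.EqL
open Pool.Agent.Run7.h172.Npp

/-- the statement `S_LD1` without the hypothesis that `E` consists of irrational numbers -/
def S_LD1' : Prop := ∀ d K : ℕ, 1 ≤ d → 1 ≤ K → ∀ c : ℝ, 0 < c → ∀ E : Set UnitAddCircle, IsCompact E →
  volume E = 0 → ∃ Q : ℕ, 1 ≤ Q ∧ ∃ τ : ℝ, 0 < τ ∧ ∃ k0 : ℕ, ∀ k ≥ k0, ∀ β : ℝ, ∀ W ⊆ QB k,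
  (∀ p ∈ W, ∃ γ : ℝ, (γ : UnitAddCircle) ∈ E ∧ ∃ m : ℕ, 1 ≤ m ∧ m ≤ K ∧ ∃ a : ℤ,
    |m * (γ - (p : ℝ) ^ d * β) - a| ≤ τ) → c * ((QB k).card : ℝ) ≤ (W.card : ℝ) →
  ∃ q : ℕ, 1 ≤ q ∧ q ≤ Q ∧ ∃ a : ℤ, |q * β - a| ≤ Q / ((2 : ℝ) ^ k) ^ d

/-- copy of `Pool.Agent.Run7.h651.NPP.ld1_of` (helper651), where the hypothesis is not used -/
theorem ld1'_of (hPW : S_PW) (hTR : S_TRIG2) (hCH : S_CHB) : S_LD1' := by
  classical
  obtain ⟨⟨b, hb, k₀, hk₀⟩, N₁, hN₁⟩ := hCH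
  intro d K hd hK1 c hc E hEc hEv
  set c₁ : ℝ := c * b / 16 with hc₁
  have hc₁0 : 0 < c₁ := by positivity
  obtain ⟨S, a, τ₁, hτ₁, h0S, hpos, ha0, hmaj⟩ := hTR K hK1 c₁ hc₁0 E hEc (by rw [hEv]; exact zero_le)
  set ε₁ : ℝ := c₁ / (∑ j ∈ S, ‖a j‖ + 1) with hε₁
  have hε₁0 : 0 < ε₁ := by
    have : 0 ≤ ∑ j ∈ S, ‖a j‖ := sum_nonneg fun _ _ => norm_nonneg _
    positivity
  obtain ⟨C, N₀, hC1, hPWN⟩ := hPW d hd ε₁ hε₁0
  set D₀ : ℕ := ∑ j ∈ S, j.natAbs + 1 with hD₀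
  set Q : ℕ := C * D₀ with hQ
  have hQ1 : 1 ≤ Q := Nat.mul_pos hC1 (by omega)
  have hCQ : C ≤ Q := Nat.le_mul_of_pos_right _ (by omega)
  obtain ⟨k₁, hk₁0, hk₁1, hk₁N0, hk₁N1⟩ : ∃ k₁ : ℕ, k₀ ≤ k₁ ∧ 1 ≤ k₁ ∧ N₀ ≤ 2 ^ k₁ ∧ N₁ ≤ 2 ^ k₁ := by
    refine ⟨k₀ + N₀ + N₁ + 1, by omega, by omega, ?_, ?_⟩
    all_goals exact le_trans (by omega) (Nat.lt_two_pow_self (n := k₀ + N₀ + N₁ + 1)).le
  refine ⟨Q, hQ1, τ₁, hτ₁, k₁, fun k hk α W hW hnear0 hcard => ?_⟩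
  have hl2 : 0 < Real.log 2 := Real.log_pos (by norm_num)
  have hk0 : (0 : ℝ) < k := by exact_mod_cast (by omega : 0 < k)
  have h2k : (2 : ℕ) ^ k₁ ≤ 2 ^ k := Nat.pow_le_pow_right (by norm_num) hk
  by_contra hnear
  -- the estimate of a good block
  have hblk : ∑ p ∈ ((Ioc (2 ^ k) (2 ^ (k + 1))).filter Nat.Prime).filter (Bad d K E τ₁ α), 1 / (p : ℝ) ≤
      4 * c₁ / (k * Real.log 2) := by
    refine good_block hc₁0 h0S hpos ha0 hmaj (by omega) ?_ ?_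
    · exact hN₁ (2 ^ k) (hk₁N1.trans h2k)
    · intro j hj hj0
      by_contra hcon
      push Not at hcon
      obtain ⟨q, hq1, hqC, a', ha'⟩ := hPWN (2 ^ k) (hk₁N0.trans h2k) (j * α) hcon.le
      refine hnear ⟨q * j.natAbs, Nat.mul_pos hq1 (Int.natAbs_pos.2 hj0), ?_, (if 0 ≤ j then a' else -a'), ?_⟩
      · rw [hQ]
        refine Nat.mul_le_mul hqC ?_
        have : j.natAbs ≤ ∑ j ∈ S, j.natAbs := single_le_sum (f := fun j : ℤ => j.natAbs) (fun _ _ => Nat.zero_le _) hj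
        omega
      · have h5 : |((q * j.natAbs : ℕ) : ℝ) * α - ((if 0 ≤ j then a' else -a' : ℤ) : ℝ)| = |q * (j * α) - a'| := by
          have h6 : ((j.natAbs : ℕ) : ℝ) = ((|j| : ℤ) : ℝ) := by
            rw [Int.abs_eq_natAbs, Int.cast_natCast]
          split_ifs with hj1
          · push_cast
            rw [h6, abs_of_nonneg hj1]
            congr 1; ring
          · push Not at hj1
            push_cast
            rw [h6, abs_of_neg hj1]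
            push_cast
            rw [show (q : ℝ) * -(j : ℝ) * α - -(a' : ℝ) = -(q * (j * α) - a') by ring, abs_neg]
        rw [h5]
        refine ha'.trans ?_
        push_cast
        have : (C : ℝ) ≤ Q := by exact_mod_cast hCQ
        gcongr
  -- lower bound for the number of primes
  have hQB : b / k ≤ ((QB k).card : ℝ) / 2 ^ k := by
    refine (hk₀ k (by omega)).trans ?_
    have h1 : ∀ p ∈ (Ioc (2 ^ k) (2 ^ (k + 1))).filter Nat.Prime, 1 / (p : ℝ) ≤ 1 / (2 : ℝ) ^ k := by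
      intro p hp
      simp only [mem_filter, mem_Ioc] at hp
      have : (2 : ℝ) ^ k ≤ p := by exact_mod_cast hp.1.1.le
      exact one_div_le_one_div_of_le (by positivity) this
    refine (sum_le_sum h1).trans ?_
    rw [sum_const, nsmul_eq_mul, mul_one_div]
    exact le_rfl
  have hWs : (W.card : ℝ) / 2 ^ (k + 1) ≤
      ∑ p ∈ ((Ioc (2 ^ k) (2 ^ (k + 1))).filter Nat.Prime).filter (Bad d K E τ₁ α), 1 / (p : ℝ) := by
    have h1 : ∑ p ∈ W, 1 / (p : ℝ) ≤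
        ∑ p ∈ ((Ioc (2 ^ k) (2 ^ (k + 1))).filter Nat.Prime).filter (Bad d K E τ₁ α), 1 / (p : ℝ) := by
      refine sum_le_sum_of_subset_of_nonneg ?_ fun _ _ _ => by positivity
      intro p hp
      rw [mem_filter]
      exact ⟨hW hp, hnear0 p hp⟩
    refine le_trans ?_ h1
    have h2 : ∀ p ∈ W, 1 / (2 : ℝ) ^ (k + 1) ≤ 1 / (p : ℝ) := by
      intro p hp
      have hp' := hW hp
      simp only [QB, mem_filter, mem_Ioc] at hp'
      have h3 : (p : ℝ) ≤ 2 ^ (k + 1) := by exact_mod_cast hp'.1.2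
      have h4 : (0 : ℝ) < p := by exact_mod_cast hp'.2.pos
      exact one_div_le_one_div_of_le h4 h3
    refine le_trans ?_ (sum_le_sum h2)
    rw [sum_const, nsmul_eq_mul, mul_one_div]
  have h2k0 : (0 : ℝ) < 2 ^ k := by positivity
  have h3 : c * (b / k) / 2 ≤ 4 * c₁ / (k * Real.log 2) := by
    calc c * (b / k) / 2 ≤ c * (((QB k).card : ℝ) / 2 ^ k) / 2 := by gcongr
      _ = (c * ((QB k).card : ℝ)) / 2 ^ (k + 1) := by rw [pow_succ]; field_simp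
      _ ≤ (W.card : ℝ) / 2 ^ (k + 1) := by gcongr
      _ ≤ _ := hWs.trans hblk
  have hl := Real.log_two_gt_d9
  rw [hc₁] at h3
  have h4 : c * (b / k) / 2 = (c * b / k) / 2 := by ring
  have h5 : 4 * (c * b / 16) / (k * Real.log 2) = (c * b / k) * (1 / (4 * Real.log 2)) := by
    field_simp
    norm_num
  rw [h4, h5] at h3
  have h6 : 0 < c * b / k := by positivity
  have h7 : 1 / (4 * Real.log 2) < 1 / 2 := by
    rw [div_lt_div_iff₀ (by positivity) (by norm_num)]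
    linarith
  nlinarith


/-- NIL-CNT -/
theorem cnt : Pool.Agent.Run7.h172.Nil.S_CNT := by
  classical
  intro E hEc hEt S₀ η hη
  obtain ⟨Q, hQ1, τ, hτ, k1, hk1⟩ := ld1'_of Pool.Agent.Helper44K9.FU.pw Pool.Agent.Helper44K9.FU.trig2
    Pool.Agent.Helper44K9.FU.chb 1 (max S₀ 1) le_rfl (le_max_right _ _) η hη {0} isCompact_singleton
    (by rw [← Metric.closedBall_zero, AddCircle.volume_closedBall]; simp)
  obtain ⟨κ, hκ, hκ1⟩ := Pool.Agent.Helper44K9.FU.kap E hEc hEt Q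
  obtain ⟨k2, hk2⟩ : ∃ k2 : ℕ, (Q : ℝ) / κ < 2 ^ k2 := pow_unbounded_of_one_lt _ (by norm_num)
  refine ⟨τ, hτ, max k1 k2, fun k hk γ hγ => ?_⟩
  by_contra hcon
  push Not at hcon
  obtain ⟨q, hq1, hqQ, a, ha⟩ := hk1 k (le_trans (le_max_left _ _) hk) γ
    ((QB k).filter (fun p : ℕ => ∃ s : ℕ, 1 ≤ s ∧ s ≤ S₀ ∧ ∃ a : ℤ, |s * (p * γ) - a| < τ))
    (filter_subset _ _) (fun p hp => by
      obtain ⟨-, s, hs1, hs2, a, ha⟩ := mem_filter.1 hp
      refine ⟨0, by simp, s, hs1, hs2.trans (le_max_left _ _), -a, ?_⟩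
      have h1 : (s : ℝ) * (0 - (p : ℝ) ^ 1 * γ) - ((-a : ℤ) : ℝ) = -(s * (p * γ) - a) := by
        push_cast; ring
      rw [h1, abs_neg]
      exact ha.le) hcon.le
  have h1 := hκ1 γ hγ q hq1 hqQ a
  have h2 : κ ≤ Q / (2 : ℝ) ^ k := by
    have := h1.trans ha
    rwa [pow_one] at this
  have h3 : (2 : ℝ) ^ k2 ≤ 2 ^ k := pow_le_pow_right₀ (by norm_num) (le_trans (le_max_right _ _) hk)
  have h4 : (0 : ℝ) < 2 ^ k := by positivity
  rw [le_div_iff₀ h4] at h2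
  rw [div_lt_iff₀ hκ] at hk2
  nlinarith

end Pool.Agent.Run7.h304.Nil
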