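import Pool.Agent.Run7.h172.Nil.StmD
import Pool.Agent.Helper44K9.FS.Fac

/-!
# Project NIL (helper172), piece FACN (helper304)

Natural version of `Helper44K9.FS.fac`: measures which are images of families of maps with singular parameters.
-/

set_option autoImplicit false

namespace Pool.Agent.Run7.h304.Nil

open Finset MeasureTheory Filter Topology
open Pool.Agent.Helper44K9.FB (lf)
open Pool.Agent.Helper44K9.FS (Win exists_compact)
open Pool.Agent.Run7.h172.Nil (MomoN)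

lemma MomoN.mono {u : ℕ → ℂ} {W W' : Set (ℕ → ℂ)} (h : MomoN u W') (hW : W ⊆ W') : MomoN u W := by
  intro ε hε
  obtain ⟨H₀, h1⟩ := h ε hε
  exact ⟨H₀, fun N H hH hN w hw => h1 N H hH hN w fun n => (hw n).imp_left fun h => hW h⟩

lemma MomoN.empty {u : ℕ → ℂ} : MomoN u ∅ := by
  intro ε hε
  refine ⟨0, fun N H _ _ w hw => ?_⟩
  have : ∀ n, w n = 0 := fun n => (hw n).resolve_left (Set.notMem_empty _)
  simp only [this, Pi.zero_apply, mul_zero, sum_const_zero, norm_zero]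
  positivity

lemma MomoN.union {u : ℕ → ℂ} {W W' : Set (ℕ → ℂ)} (h : MomoN u W) (h' : MomoN u W') : MomoN u (W ∪ W') := by
  classical
  intro ε hε
  obtain ⟨H₀, h1⟩ := h (ε / 2) (by positivity)
  obtain ⟨H₀', h1'⟩ := h' (ε / 2) (by positivity)
  refine ⟨max H₀ H₀', fun N H hH hN w hw => ?_⟩
  have h3 := h1 N H (le_trans (le_max_left _ _) hH) hN (fun n => if w n ∈ W then w n else 0) (fun n => by
    show (if w n ∈ W then w n else 0) ∈ W ∨ (if w n ∈ W then w n else 0) = 0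
    by_cases hn : w n ∈ W
    · rw [if_pos hn]; exact Or.inl hn
    · rw [if_neg hn]; exact Or.inr rfl)
  have h4 := h1' N H (le_trans (le_max_right _ _) hH) hN (fun n => if w n ∈ W then 0 else w n) (fun n => by
    show (if w n ∈ W then 0 else w n) ∈ W' ∨ (if w n ∈ W then 0 else w n) = 0
    by_cases hn : w n ∈ W
    · rw [if_pos hn]; exact Or.inr rfl
    · rw [if_neg hn]
      rcases hw n with (h5 | h5) | h5
      · exact absurd h5 hn
      · exact Or.inl h5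
      · exact Or.inr h5)
  have h5 : ∑ n ∈ Icc 1 N, ‖∑ h ∈ Icc 1 H, u (n + h) * w n h‖ ≤
      ∑ n ∈ Icc 1 N, ‖∑ h ∈ Icc 1 H, u (n + h) * (if w n ∈ W then w n else 0) h‖ +
      ∑ n ∈ Icc 1 N, ‖∑ h ∈ Icc 1 H, u (n + h) * (if w n ∈ W then 0 else w n) h‖ := by
    rw [← sum_add_distrib]
    refine sum_le_sum fun n _ => ?_
    by_cases hn : w n ∈ W
    · simp [hn]
    · simp [hn]
  nlinarith

lemma MomoN.biUnion {ι : Type*} {u : ℕ → ℂ} {W : ι → Set (ℕ → ℂ)} (s : Set ι) (hs : s.Finite)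
    (h : ∀ i ∈ s, MomoN u (W i)) : MomoN u (⋃ i ∈ s, W i) := by
  induction s, hs using Set.Finite.induction_on with
  | empty => simpa using MomoN.empty
  | insert ha hs ih =>
    rw [Set.biUnion_insert]
    exact MomoN.union (h _ (Set.mem_insert _ _)) (ih fun i hi => h i (Set.mem_insert_of_mem _ hi))

/-- images of families -/
theorem facn {X : Type*} [MetricSpace X] [CompactSpace X] [MeasurableSpace X] [BorelSpace X] {T : X → X}
    (hT : Continuous T) (f : C(X, ℂ)) (u : ℕ → ℂ)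
    {Ω Y : Type*} [MetricSpace Ω] [CompactSpace Ω] [MeasurableSpace Ω] [BorelSpace Ω]
    [MetricSpace Y] [CompactSpace Y] [MeasurableSpace Y] [BorelSpace Y]
    {d : ℕ} {G : Type*} (act : G → Y → Y) (par : G → Fin d → UnitAddCircle) (K : Set (Fin d → ℤ))
    (hMomo : ∀ E : Set (Fin d → UnitAddCircle), IsCompact E → (∀ k ∈ K, volume (lf k '' E) = 0 ∧ ∀ x ∈ E,
      addOrderOf (lf k x) = 0) → ∀ F : C(Y, ℂ), MomoN u (Win act par E F))
    (g : Ω → G) (hg : Measurable fun ω => par (g ω)) (R : Ω × Y → Ω × Y) (hR : ∀ z, R z = (z.1, act (g z.1) z.2))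
    (ρ : Measure (Ω × Y)) [IsFiniteMeasure ρ] (hρ : MeasurePreserving R ρ ρ)
    (hsing : ∀ k ∈ K, (ρ.map fun z => lf k (par (g z.1))) ⟂ₘ (volume : Measure UnitAddCircle))
    (hirr : ∀ k ∈ K, ∀ᵐ z ∂ρ, addOrderOf (lf k (par (g z.1))) = 0)
    (π : Ω × Y → X) (hπ : Measurable π) (hπR : ∀ᵐ z ∂ρ, π (R z) = T (π z)) (ε : ℝ) (hε : 0 < ε) :
    ∃ W : Set (ℕ → ℂ), MomoN u W ∧ ∀ H : ℕ, 1 ≤ H →
      ρ.real Set.univ - ε ≤ (ρ.map π).real {y | ∃ w ∈ W, ∑ h ∈ Icc 1 H, ‖f (T^[h] y) - w h‖ < ε * H} := by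
  classical
  obtain ⟨E, hEc, hE, hρE⟩ := exists_compact ρ (fun z => par (g z.1)) (hg.comp measurable_fst) K hsing hirr
    (ENNReal.ofReal (ε / 4)) (by simp [hε])
  -- the approximation
  set φ : Ω × Y → ℂ := fun z => f (π z) with hφ
  have hφm : Measurable φ := f.continuous.measurable.comp hπ
  have hφi : Integrable φ ρ := by
    refine Integrable.of_bound hφm.aestronglyMeasurable ‖f‖ (ae_of_all _ fun z => f.norm_coe_le_norm _)
  obtain ⟨F₀, hF₀, hF₀i⟩ := hφi.exists_boundedContinuous_integral_sub_le (show 0 < ε ^ 2 / 16 by positivity)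
  have hu : UniformContinuous F₀ := CompactSpace.uniformContinuous_of_continuous F₀.continuous
  obtain ⟨δ, hδ, hδF⟩ := Metric.uniformContinuous_iff.1 hu (ε / 4) (by positivity)
  obtain ⟨t, -, ht, htc⟩ := finite_cover_balls_of_compact (isCompact_univ : IsCompact (Set.univ : Set Ω)) hδ
  set Fω : Ω → C(Y, ℂ) := fun ω => ⟨fun y => F₀ (ω, y), F₀.continuous.comp (by fun_prop)⟩ with hFω
  refine ⟨⋃ ω ∈ t, Win act par E (Fω ω), MomoN.biUnion t ht fun ω _ => hMomo E hEc hE (Fω ω), fun H hH => ?_⟩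
  have hHr : (1 : ℝ) ≤ H := by exact_mod_cast hH
  set W : Set (ℕ → ℂ) := ⋃ ω ∈ t, Win act par E (Fω ω) with hW
  set O : Set X := {y | ∃ w ∈ W, ∑ h ∈ Icc 1 H, ‖f (T^[h] y) - w h‖ < ε * H} with hO
  have hOo : IsOpen O := by
    have : O = ⋃ w ∈ W, {y | ∑ h ∈ Icc 1 H, ‖f (T^[h] y) - w h‖ < ε * H} := by
      ext y
      rw [hO, Set.mem_ofPred_eq, Set.mem_iUnion₂]
      constructor
      · rintro ⟨w, h1, h2⟩; exact ⟨w, h1, h2⟩
      · rintro ⟨w, h1, h2⟩; exact ⟨w, h1, h2⟩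
    rw [this]
    refine isOpen_biUnion fun w _ => isOpen_lt ?_ continuous_const
    exact continuous_finsetSum _ fun h _ => ((f.continuous.comp (hT.iterate h)).sub continuous_const).norm
  rw [map_measureReal_apply hπ hOo.measurableSet]
  -- iterates
  have hRn : ∀ (n : ℕ) (z : Ω × Y), R^[n] z = (z.1, (act (g z.1))^[n] z.2) := by
    intro n z
    induction n with
    | zero => rfl
    | succ n ih => rw [Function.iterate_succ_apply', ih, hR, Function.iterate_succ_apply']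
  have hπn : ∀ᵐ z ∂ρ, ∀ n : ℕ, π (R^[n] z) = T^[n] (π z) := by
    rw [ae_all_iff]
    intro n
    induction n with
    | zero => exact ae_of_all _ fun z => rfl
    | succ n ih =>
      have h1 : ∀ᵐ z ∂ρ, π (R (R^[n] z)) = T (π (R^[n] z)) :=
        (hρ.iterate n).quasiMeasurePreserving.ae hπR
      filter_upwards [ih, h1] with z h2 h3
      rw [Function.iterate_succ_apply', h3, h2, Function.iterate_succ_apply']
  -- the third bad set
  set ψ : Ω × Y → ℝ := fun z => ∑ h ∈ Icc 1 H, ‖φ (R^[h] z) - F₀ (R^[h] z)‖ with hψ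
  have hdi : Integrable (fun z => ‖φ z - F₀ z‖) ρ := (hφi.sub hF₀i).norm
  have hdh : ∀ h : ℕ, Integrable (fun z => ‖φ (R^[h] z) - F₀ (R^[h] z)‖) ρ := fun h =>
    (hρ.iterate h).integrable_comp_of_integrable hdi
  have hψi : Integrable ψ ρ := integrable_finsetSum _ fun h _ => hdh h
  have hψint : ∫ z, ψ z ∂ρ ≤ H * (ε ^ 2 / 16) := by
    rw [hψ, integral_finsetSum _ fun h _ => hdh h]
    have h1 : ∀ h ∈ Icc 1 H, ∫ z, ‖φ (R^[h] z) - F₀ (R^[h] z)‖ ∂ρ ≤ ε ^ 2 / 16 := by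
      intro h _
      have h2 : ∫ z, ‖φ (R^[h] z) - F₀ (R^[h] z)‖ ∂ρ = ∫ z, ‖φ z - F₀ z‖ ∂ρ := by
        have h3 := (hρ.iterate h)
        have h4 : ∫ z, ‖φ z - F₀ z‖ ∂ρ = ∫ z, ‖φ z - F₀ z‖ ∂(ρ.map (R^[h])) := by rw [h3.map_eq]
        rw [h4, integral_map h3.measurable.aemeasurable]
        rw [h3.map_eq]
        exact hdi.aestronglyMeasurable
      rw [h2]; exact hF₀
    refine (sum_le_sum h1).trans (le_of_eq ?_)
    rw [sum_const, Nat.card_Icc, nsmul_eq_mul, Nat.add_sub_cancel]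
  have hbad3 : ρ.real {z | ε / 2 * H ≤ ψ z} ≤ ε / 4 := by
    have h1 := mul_meas_ge_le_integral_of_nonneg (ae_of_all _ fun z => sum_nonneg fun h _ => norm_nonneg _) hψi
      (ε / 2 * H)
    have h2 : ε / 2 * H * ρ.real {z | ε / 2 * H ≤ ψ z} ≤ ε / 2 * H * (ε / 8) := by
      refine (h1.trans hψint).trans (le_of_eq ?_); ring
    have h3 := le_of_mul_le_mul_left h2 (by positivity)
    linarith
  have hbad1 : ρ.real {z | par (g z.1) ∉ E} ≤ ε / 4 := by
    unfold Measure.real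
    rw [← ENNReal.toReal_ofReal (show 0 ≤ ε / 4 by positivity)]
    exact ENNReal.toReal_mono ENNReal.ofReal_ne_top hρE.le
  have hbad2 : ρ.real {z | ¬ ∀ n : ℕ, π (R^[n] z) = T^[n] (π z)} = 0 := by
    unfold Measure.real
    rw [show ρ {z | ¬ ∀ n : ℕ, π (R^[n] z) = T^[n] (π z)} = 0 from hπn]
    rfl
  have hcov : (Set.univ : Set (Ω × Y)) ⊆ ((π ⁻¹' O ∪ {z | par (g z.1) ∉ E}) ∪
      {z | ¬ ∀ n : ℕ, π (R^[n] z) = T^[n] (π z)}) ∪ {z | ε / 2 * H ≤ ψ z} := by
    intro z _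
    by_cases h1 : par (g z.1) ∉ E
    · exact Or.inl (Or.inl (Or.inr h1))
    by_cases h2 : ∀ n : ℕ, π (R^[n] z) = T^[n] (π z)
    swap
    · exact Or.inl (Or.inr h2)
    by_cases h3 : ε / 2 * H ≤ ψ z
    · exact Or.inr h3
    refine Or.inl (Or.inl (Or.inl ?_))
    have h4 := htc (Set.mem_univ z.1)
    rw [Set.mem_iUnion₂] at h4
    obtain ⟨ω, hω, hzω⟩ := h4
    refine ⟨fun h => Fω ω ((act (g z.1))^[h] z.2), ?_, ?_⟩
    · rw [hW, Set.mem_iUnion₂]
      exact ⟨ω, hω, g z.1, not_not.1 h1, z.2, rfl⟩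
    · have h5 : ∀ h ∈ Icc 1 H, ‖f (T^[h] (π z)) - Fω ω ((act (g z.1))^[h] z.2)‖ ≤
          ‖φ (R^[h] z) - F₀ (R^[h] z)‖ + ε / 4 := by
        intro h _
        have h6 : φ (R^[h] z) = f (T^[h] (π z)) := by rw [hφ]; exact congrArg f (h2 h)
        have h7 : dist (F₀ (R^[h] z)) (F₀ (ω, (act (g z.1))^[h] z.2)) < ε / 4 := by
          apply hδF
          rw [hRn, Prod.dist_eq, dist_self, max_eq_left dist_nonneg]
          exact Metric.mem_ball.1 hzω
        rw [dist_eq_norm] at h7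
        have h8 : f (T^[h] (π z)) - Fω ω ((act (g z.1))^[h] z.2) =
            (φ (R^[h] z) - F₀ (R^[h] z)) + (F₀ (R^[h] z) - F₀ (ω, (act (g z.1))^[h] z.2)) := by
          rw [← h6, hFω]
          show φ (R^[h] z) - F₀ (ω, (act (g z.1))^[h] z.2) = _
          ring
        rw [h8]
        exact (norm_add_le _ _).trans (add_le_add le_rfl h7.le)
      calc ∑ h ∈ Icc 1 H, ‖f (T^[h] (π z)) - Fω ω ((act (g z.1))^[h] z.2)‖ ≤
          ∑ h ∈ Icc 1 H, (‖φ (R^[h] z) - F₀ (R^[h] z)‖ + ε / 4) := sum_le_sum h5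
        _ = ψ z + H * (ε / 4) := by
            rw [sum_add_distrib, sum_const, Nat.card_Icc, nsmul_eq_mul, Nat.add_sub_cancel]
        _ < ε / 2 * H + H * (ε / 4) := by linarith [not_le.1 h3]
        _ ≤ ε * H := by nlinarith
  have h9 : ρ.real Set.univ ≤ ρ.real (π ⁻¹' O) + ρ.real {z | par (g z.1) ∉ E} +
      ρ.real {z | ¬ ∀ n : ℕ, π (R^[n] z) = T^[n] (π z)} + ρ.real {z | ε / 2 * H ≤ ψ z} := by
    refine (measureReal_mono hcov).trans ?_
    refine (measureReal_union_le _ _).trans (add_le_add ?_ le_rfl)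
    refine (measureReal_union_le _ _).trans (add_le_add ?_ le_rfl)
    exact measureReal_union_le _ _
  linarith

end Pool.Agent.Run7.h304.Nil
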